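import Mathlib

/-!
# Graph products of copies of a group: definition
-/

set_option autoImplicit false

namespace Pool.Agent.FJ

open Monoid

/-- The defining relators of the graph product of copies of `A` over the graph with edge
relation `E`: all commutators of an element of the copy at `v` and an element of the copy at `w`,
for all edges `E v w`. -/
def gpRel {V : Type} (E : V → V → Prop) (A : Type) [Group A] : Set (CoprodI (fun _ : V => A)) :=
  {x | ∃ v w, E v w ∧ ∃ a b : A,
    x = (CoprodI.of (M := fun _ : V => A) (i := v) a * CoprodI.of (M := fun _ : V => A) (i := w) b) *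
      (CoprodI.of (M := fun _ : V => A) (i := w) b * CoprodI.of (M := fun _ : V => A) (i := v) a)⁻¹}

/-- The graph product of copies of `A` over the graph with vertex set `V` and edge relation `E`:
the quotient of the free product of copies of `A` indexed by `V` by the relators `gpRel`. -/
abbrev GP {V : Type} (E : V → V → Prop) (A : Type) [Group A] : Type :=
  CoprodI (fun _ : V => A) ⧸ Subgroup.normalClosure (gpRel E A)

/-- The graph product of copies of `A` over the graph `Γ`. -/
def GraphProduct {V : Type} (Γ : SimpleGraph V) (A : Type) [Group A] : Type :=
  CoprodI (fun _ : V => A) ⧸ Subgroup.normalClosure (gpRel Γ.Adj A)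

instance GraphProduct.instGroup {V : Type} (Γ : SimpleGraph V) (A : Type) [Group A] :
    Group (GraphProduct Γ A) :=
  QuotientGroup.Quotient.group (Subgroup.normalClosure (gpRel Γ.Adj A))

/-- The canonical map of `A` to the copy of `A` at the vertex `v`. -/
def GraphProduct.copy {V : Type} (Γ : SimpleGraph V) (A : Type) [Group A] (v : V) :
    A →* GraphProduct Γ A :=
  (QuotientGroup.mk' (Subgroup.normalClosure (gpRel Γ.Adj A))).comp
    (CoprodI.of (M := fun _ : V => A) (i := v))

/-- The action `φ` of `Q` on the graph product permutes the copies of `A` as `Q` permutes the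
vertices. -/
def GraphProduct.Permutes {V : Type} (Γ : SimpleGraph V) (A Q : Type) [Group A] [Group Q]
    [MulAction Q V] (φ : Q →* MulAut (GraphProduct Γ A)) : Prop :=
  ∀ (q : Q) (v : V) (a : A),
    φ q (GraphProduct.copy Γ A v a) = GraphProduct.copy Γ A (q • v) a

end Pool.Agent.FJ
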