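import Pool.Agent.Lib.MP_98022b_h71.Base
import Pool.Agent.Lib.MP_98022b_gw.Def

/-!
# Graph products of copies of a group, and graph wreath products
-/

set_option autoImplicit false

namespace Pool.Agent.FJ

open Monoid SemidirectProduct

section

variable {V : Type} {E E' : V → V → Prop} {A : Type} [Group A]

/-- The canonical map of the vertex group at `v` to the graph product. -/
def vert (E : V → V → Prop) (v : V) : A →* GP E A :=
  (QuotientGroup.mk' (Subgroup.normalClosure (gpRel E A))).comp
    (CoprodI.of (M := fun _ : V => A) (i := v))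

theorem vert_comm {v w : V} (h : E v w) (a b : A) : Commute (vert E v a) (vert E w b) := by
  have h1 : (gen v a * gen w b) * (gen w b * gen v a)⁻¹ ∈
      Subgroup.normalClosure (gpRel E A) :=
    Subgroup.subset_normalClosure ⟨v, w, h, a, b, rfl⟩
  have h2 := (QuotientGroup.eq_one_iff _).2 h1
  have h3 : (vert E v a * vert E w b) * (vert E w b * vert E v a)⁻¹ = 1 := h2
  exact mul_inv_eq_one.1 h3

/-- Homomorphisms out of a graph product. -/
def gpLift {G : Type} [Group G] (β : V → (A →* G))
    (hβ : ∀ v w, E v w → ∀ a b, Commute (β v a) (β w b)) : GP E A →* G :=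
  QuotientGroup.lift _ (genLift β) (by
    have h : gpRel E A ⊆ ((genLift β).ker : Set _) := by
      rintro x ⟨v, w, hvw, a, b, rfl⟩
      have e1 : genLift β (CoprodI.of (M := fun _ : V => A) (i := v) a) = β v a :=
        CoprodI.lift_of _ _
      have e2 : genLift β (CoprodI.of (M := fun _ : V => A) (i := w) b) = β w b :=
        CoprodI.lift_of _ _
      show genLift β _ = 1
      rw [map_mul, map_inv, map_mul, map_mul, e1, e2, mul_inv_eq_one]
      exact hβ v w hvw a b
    exact fun x hx => Subgroup.normalClosure_le_normal h hx)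

@[simp] theorem gpLift_vert {G : Type} [Group G] (β : V → (A →* G))
    (hβ : ∀ v w, E v w → ∀ a b, Commute (β v a) (β w b)) (v : V) (a : A) :
    gpLift β hβ (vert E v a) = β v a :=
  CoprodI.lift_of _ _

theorem gp_hom_ext {G : Type} [Group G] {f g : GP E A →* G}
    (h : ∀ v a, f (vert E v a) = g (vert E v a)) : f = g := by
  refine QuotientGroup.monoidHom_ext _ ?_
  exact gen_hom_ext fun v a => h v a

/-- The map to the graph product with more edges. -/
def gpMap (h : ∀ v w, E v w → E' v w) : GP E A →* GP E' A :=
  gpLift (fun v => vert E' v) fun v w hvw a b => vert_comm (h v w hvw) a b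

@[simp] theorem gpMap_vert (h : ∀ v w, E v w → E' v w) (v : V) (a : A) :
    gpMap h (vert E v a) = vert E' v a := gpLift_vert _ _ _ _

theorem gpMap_mk (h : ∀ v w, E v w → E' v w) (x : CoprodI (fun _ : V => A)) :
    gpMap h (QuotientGroup.mk x : GP E A) = QuotientGroup.mk x := by
  have : (gpMap h).comp (QuotientGroup.mk' (Subgroup.normalClosure (gpRel E A))) =
      QuotientGroup.mk' (Subgroup.normalClosure (gpRel E' A)) :=
    gen_hom_ext fun v a => gpMap_vert h v a
  exact DFunLike.congr_fun this x

end

section

variable {H V : Type} [Group H] [MulAction H V] {E E' : V → V → Prop} {A : Type} [Group A]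

/-- The homomorphism of the graph product given by an element of a group acting on the graph. -/
def gpActFun (hE : ∀ (h : H) v w, E v w → E (h • v) (h • w)) (h : H) : GP E A →* GP E A :=
  gpLift (fun v => vert E (h • v)) fun v w hvw a b => vert_comm (hE h v w hvw) a b

@[simp] theorem gpActFun_vert (hE : ∀ (h : H) v w, E v w → E (h • v) (h • w)) (h : H) (v : V)
    (a : A) : gpActFun hE h (vert E v a) = vert E (h • v) a := gpLift_vert _ _ _ _

theorem gpActFun_one (hE : ∀ (h : H) v w, E v w → E (h • v) (h • w)) :
    gpActFun (A := A) hE 1 = MonoidHom.id _ := by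
  refine gp_hom_ext fun v a => ?_
  rw [gpActFun_vert, one_smul]; rfl

theorem gpActFun_mul (hE : ∀ (h : H) v w, E v w → E (h • v) (h • w)) (h h' : H) :
    gpActFun (A := A) hE (h * h') = (gpActFun hE h).comp (gpActFun hE h') := by
  refine gp_hom_ext fun v a => ?_
  rw [MonoidHom.comp_apply, gpActFun_vert, gpActFun_vert, gpActFun_vert, mul_smul]

/-- The action on the graph product of a group acting on the graph: it permutes the copies of
`A`, i.e. `h` maps the element `a` of the copy at `v` to the element `a` of the copy at `h • v`. -/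
def gpAct (hE : ∀ (h : H) v w, E v w → E (h • v) (h • w)) : H →* MulAut (GP E A) where
  toFun h := MonoidHom.toMulEquiv (gpActFun hE h) (gpActFun hE h⁻¹)
    (by rw [← gpActFun_mul, inv_mul_cancel, gpActFun_one])
    (by rw [← gpActFun_mul, mul_inv_cancel, gpActFun_one])
  map_one' := by
    ext x
    exact DFunLike.congr_fun (gpActFun_one hE) x
  map_mul' h h' := by
    ext x
    exact DFunLike.congr_fun (gpActFun_mul hE h h') x

@[simp] theorem gpAct_vert (hE : ∀ (h : H) v w, E v w → E (h • v) (h • w)) (h : H) (v : V)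
    (a : A) : gpAct hE h (vert E v a) = vert E (h • v) a := gpActFun_vert hE h v a

/-- Graph wreath products: the semidirect product of the graph product of copies of `A` over
`(V, E)` and the group `H` acting on the graph. -/
abbrev GW (A : Type) [Group A] (hE : ∀ (h : H) v w, E v w → E (h • v) (h • w)) : Type :=
  GP E A ⋊[gpAct hE] H

variable (hE : ∀ (h : H) v w, E v w → E (h • v) (h • w))

/-- Homomorphisms out of a graph wreath product. -/
def gwLift {G : Type} [Group G] (α : H →* G) (β : V → (A →* G))
    (hβ : ∀ v w, E v w → ∀ a b, Commute (β v a) (β w b))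
    (hα : ∀ h v a, β (h • v) a = α h * β v a * (α h)⁻¹) : GW A hE →* G :=
  SemidirectProduct.lift (gpLift β hβ) α (by
    intro h
    refine gp_hom_ext fun v a => ?_
    simp [hα])

@[simp] theorem gwLift_inr {G : Type} [Group G] (α : H →* G) (β : V → (A →* G))
    (hβ : ∀ v w, E v w → ∀ a b, Commute (β v a) (β w b))
    (hα : ∀ h v a, β (h • v) a = α h * β v a * (α h)⁻¹) (h : H) :
    gwLift hE α β hβ hα (inr h) = α h := by simp [gwLift]

@[simp] theorem gwLift_vert {G : Type} [Group G] (α : H →* G) (β : V → (A →* G))
    (hβ : ∀ v w, E v w → ∀ a b, Commute (β v a) (β w b))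
    (hα : ∀ h v a, β (h • v) a = α h * β v a * (α h)⁻¹) (v : V) (a : A) :
    gwLift hE α β hβ hα (inl (vert E v a)) = β v a := by simp [gwLift]

theorem gw_hom_ext {G : Type} [Group G] {f g : GW A hE →* G} (h1 : ∀ h, f (inr h) = g (inr h))
    (h2 : ∀ v a, f (inl (vert E v a)) = g (inl (vert E v a))) : f = g :=
  SemidirectProduct.hom_ext (gp_hom_ext fun v a => h2 v a) (MonoidHom.ext h1)

theorem gw_conj (h : H) (v : V) (a : A) :
    (inl (vert E (h • v) a) : GW A hE) = inr h * inl (vert E v a) * (inr h)⁻¹ := by
  rw [← gpAct_vert hE, inl_aut, _root_.map_inv]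

theorem gw_comm {v w : V} (h : E v w) (a b : A) :
    Commute (inl (vert E v a) : GW A hE) (inl (vert E w b)) :=
  (vert_comm h a b).map (inl : GP E A →* GW A hE)

/-- The map to the graph wreath product with more edges. -/
def gwMap (hE : ∀ (h : H) v w, E v w → E (h • v) (h • w))
    (hE' : ∀ (h : H) v w, E' v w → E' (h • v) (h • w)) (h : ∀ v w, E v w → E' v w) :
    GW A hE →* GW A hE' :=
  gwLift hE inr (fun v => inl.comp (vert E' v)) (fun v w hvw a b => gw_comm hE' (h v w hvw) a b)
    (fun z v a => gw_conj hE' z v a)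

@[simp] theorem gwMap_inr (hE' : ∀ (h : H) v w, E' v w → E' (h • v) (h • w))
    (h : ∀ v w, E v w → E' v w) (z : H) :
    gwMap (A := A) hE hE' h (inr z) = inr z := gwLift_inr _ _ _ _ _ _

@[simp] theorem gwMap_vert (hE' : ∀ (h : H) v w, E' v w → E' (h • v) (h • w))
    (h : ∀ v w, E v w → E' v w) (v : V) (a : A) :
    gwMap hE hE' h (inl (vert E v a)) = inl (vert E' v a) := gwLift_vert _ _ _ _ _ _ _

theorem gwMap_inl (hE' : ∀ (h : H) v w, E' v w → E' (h • v) (h • w))
    (h : ∀ v w, E v w → E' v w) (x : GP E A) :
    gwMap hE hE' h (inl x) = inl (gpMap h x) := by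
  have : (gwMap hE hE' h).comp (inl : GP E A →* GW A hE) = (inl : GP E' A →* GW A hE').comp
      (gpMap h) := gp_hom_ext fun v a => by simp
  exact DFunLike.congr_fun this x

end

end Pool.Agent.FJ
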