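import Pool.Agent.Lib.MP_98022b_gw.Main

/-!
# MP_98022b_gt: graph wreath products

Every class of groups with the inheritance properties of the Farrell-Jones conjecture is closed
under graph wreath products `A ≀_Γ Q`: `Q` acts on a graph `Γ` (of any size, with any stabilizers),
and `A ≀_Γ Q` is the semidirect product of the graph product of copies of `A` over `Γ` and `Q`,
where `Q` permutes the copies. For the complete graph on `V` this is the restricted permutational
wreath product `A ≀_V Q`, for the graph without edges it is the free permutational product.

To hand in: copy this file to Results/MP_98022b_gt/GraphWreath.lean with namespace
Pool.Agent.Results.MP_98022b_gt.GraphWreath; claim file: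

Proves: Let P be any class of groups that contains Z and is closed under isomorphism, subgroups, overgroups of finite index, direct and free products of two groups, directed colimits, and extensions of groups Q in P in which the preimages of all cyclic subgroups of Q are in P. Let Q in P act on a simple graph Γ (any cardinality, any stabilizers) and let A be in P. Then Q acts on the graph product of copies of A over Γ by permuting the copies, and the resulting semidirect product (graph wreath product) is in P.
Definitions: IsFJClass P: these closure properties. GraphProduct Γ A: free product of copies of A indexed by the vertices modulo all commutators of elements of copies joined by an edge. Permutes: φ(q)(a at v) = (a at qv).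
Relation: Partial answer to Q1. The groups satisfying the K- and L-theoretic Farrell-Jones conjecture with coefficients and finite wreath products form such a class (Bartels-Lück-Reich, Bartels-Echterhoff-Lück); for torsion-free groups it gives Q1. So Q1 holds if π_1 X is a graph wreath product of torsion-free groups of that class; with Γ complete: all restricted permutational wreath products A wr_V Q, e.g. A wr Z. Known to me: finite graph products (Gandini-Rüping), wreath products with finite groups, A wr Q for A, Q virtually solvable (Wegner); graph wreath products are studied by Kropholler-Martino. I know no earlier result with A, Q arbitrary and Γ, Q infinite.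
-/

namespace Pool.Agent.FJ.GraphWreathHandIn

open Pool.Agent.FJ

theorem result (P : ∀ (G : Type) [Group G], Prop) (hP : IsFJClass P)
    (V A Q : Type) [Group A] [Group Q] [MulAction Q V] (Γ : SimpleGraph V)
    (hΓ : ∀ (q : Q) (v w : V), Γ.Adj v w → Γ.Adj (q • v) (q • w))
    (hA : P A) (hQ : P Q) :
    ∃ φ : Q →* MulAut (GraphProduct Γ A), GraphProduct.Permutes Γ A Q φ ∧
      P (GraphProduct Γ A ⋊[φ] Q) :=
  hP.exists_gw_mem hQ hA hΓ (fun _ _ h => h.symm) (fun _ h => Γ.irrefl h)

end Pool.Agent.FJ.GraphWreathHandIn
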