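import Pool.Agent.Lib.MP_98022b_gw.Orbit

/-!
# Graph wreath products
-/

set_option autoImplicit false

namespace Pool.Agent.FJ

open Monoid SemidirectProduct

variable {P : ∀ (G : Type) [Group G], Prop}

section Comp

variable {H H' V : Type} [Group H] [Group H'] [MulAction H V] {E : V → V → Prop} {A : Type}
  [Group A]

theorem gpAct_comp (act' : MulAction H' V) (φ : H' →* H) (hφ : ∀ (z : H') (v : V), z • v = φ z • v)
    (hE : ∀ (h : H) v w, E v w → E (h • v) (h • w))
    (hE' : ∀ (h : H') v w, E v w → E (h • v) (h • w)) :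
    (gpAct hE' : H' →* MulAut (GP E A)) = (gpAct hE).comp φ := by
  refine MonoidHom.ext fun z => MulEquiv.ext fun x => ?_
  have h : (gpActFun hE' z : GP E A →* GP E A) = gpActFun hE (φ z) := by
    refine gp_hom_ext fun v a => ?_
    rw [gpActFun_vert, gpActFun_vert, hφ]
  exact DFunLike.congr_fun h x

/-- Actions of the infinite cyclic group through another group. -/
theorem IsFJClass.gw_finite_comp (hP : IsFJClass P) (hA : P A)
    (hE : ∀ (h : H) v w, E v w → E (h • v) (h • w)) (φ : Multiplicative ℤ →* H) (S : Finset V)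
    (hsymm : ∀ v w, E v w → E w v) (hirr : ∀ v w, E v w → ∀ m : Multiplicative ℤ, φ m • v ≠ w)
    (hfin : ∀ v w, E v w → ∃ s ∈ S, ∃ m : Multiplicative ℤ, φ m • s = v) :
    P (GP E A ⋊[(gpAct hE).comp φ] (Multiplicative ℤ)) := by
  let act' : MulAction (Multiplicative ℤ) V := MulAction.compHom V φ
  have hE' : ∀ (h : Multiplicative ℤ) v w, E v w → E (h • v) (h • w) :=
    fun h v w hvw => hE (φ h) v w hvw
  rw [← gpAct_comp act' φ (fun _ _ => rfl) hE hE']
  refine hP.gw_finite_orbits hP.int hA S E hE' hsymm ?_ ?_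
  · rintro v w hvw ⟨m, hm⟩
    exact hirr v w hvw m hm
  · intro v w hvw
    obtain ⟨s, hs, m, hm⟩ := hfin v w hvw
    exact ⟨s, hs, m, hm⟩

end Comp

section Root

variable {V : Type} [MulAction (Multiplicative ℤ) V] {E : V → V → Prop} {A : Type} [Group A]

/-- The `k`-th power endomorphism of the infinite cyclic group. -/
def zpw (k : ℕ) : Multiplicative ℤ →* Multiplicative ℤ := powMonoidHom k

theorem zpw_apply (k : ℕ) (z : Multiplicative ℤ) : zpw k z = z ^ k := rfl

/-- Reduction modulo `k`. -/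
def zmodHom (k : ℕ) : Multiplicative ℤ →* Multiplicative (ZMod k) :=
  AddMonoidHom.toMultiplicative (Int.castAddHom (ZMod k))

theorem dvd_of_zmodHom {k : ℕ} {z : Multiplicative ℤ} (h : zmodHom k z = 1) :
    (k : ℤ) ∣ Multiplicative.toAdd z := by
  have h1 : Multiplicative.toAdd (zmodHom k z) = 0 := by rw [h, toAdd_one]
  have h2 : Multiplicative.toAdd (zmodHom k z) = ((Multiplicative.toAdd z : ℤ) : ZMod k) := rfl
  rw [h2] at h1
  exact (ZMod.intCast_zmod_eq_zero_iff_dvd _ k).1 h1

/-- Division by `k`. -/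
def zroot (k : ℕ) (z : Multiplicative ℤ) : Multiplicative ℤ :=
  Multiplicative.ofAdd (Multiplicative.toAdd z / (k : ℤ))

theorem zroot_one (k : ℕ) : zroot k 1 = 1 := by
  show Multiplicative.ofAdd ((0 : ℤ) / (k : ℤ)) = 1
  rw [Int.zero_ediv, ofAdd_zero]

theorem zroot_pow {k : ℕ} {z : Multiplicative ℤ} (h : (k : ℤ) ∣ Multiplicative.toAdd z) :
    (zroot k z) ^ k = z := by
  apply Multiplicative.toAdd.injective
  rw [toAdd_pow, zroot, toAdd_ofAdd, nsmul_eq_mul]
  exact Int.mul_ediv_cancel' h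

theorem zroot_mul {k : ℕ} {z w : Multiplicative ℤ} (h : (k : ℤ) ∣ Multiplicative.toAdd z) :
    zroot k (z * w) = zroot k z * zroot k w := by
  apply Multiplicative.toAdd.injective
  rw [toAdd_mul, zroot, zroot, zroot, toAdd_ofAdd, toAdd_ofAdd, toAdd_ofAdd, toAdd_mul]
  exact Int.add_ediv_of_dvd_left h

/-- Passing to the subgroup of index `k` of the infinite cyclic group. -/
theorem IsFJClass.semidirect_power (hP : IsFJClass P) {N : Type} [Group N]
    (act : Multiplicative ℤ →* MulAut N) (k : ℕ) (hk : 0 < k)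
    (h : P (N ⋊[act.comp (zpw k)] (Multiplicative ℤ))) : P (N ⋊[act] (Multiplicative ℤ)) := by
  have : NeZero k := ⟨hk.ne'⟩
  refine hP.of_finite_range ((zmodHom k).comp rightHom) ?_
  have hker : ∀ x : ((zmodHom k).comp (rightHom : N ⋊[act] (Multiplicative ℤ) →* _)).ker,
      (k : ℤ) ∣ Multiplicative.toAdd (x : N ⋊[act] (Multiplicative ℤ)).right := fun x =>
    dvd_of_zmodHom x.2
  refine hP.of_injective (H := N ⋊[act.comp (zpw k)] (Multiplicative ℤ))
    { toFun := fun x => ⟨x.1.left, zroot k x.1.right⟩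
      map_one' := SemidirectProduct.ext rfl (zroot_one k)
      map_mul' := fun x y => SemidirectProduct.ext ?_ (zroot_mul (hker x)) } ?_ h
  · show x.1.left * act x.1.right y.1.left = x.1.left * act ((zroot k x.1.right) ^ k) y.1.left
    rw [zroot_pow (hker x)]
  · intro x y hxy
    have h1 := congrArg SemidirectProduct.left hxy
    have h2 := congrArg SemidirectProduct.right hxy
    apply Subtype.ext
    refine SemidirectProduct.ext h1 ?_
    rw [← zroot_pow (hker x), ← zroot_pow (hker y)]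
    exact congrArg (fun z => z ^ k) h2

/-- For two different points there is a power of the generator no multiple of which maps one to
the other. -/
theorem exists_sep (v w : V) (hvw : v ≠ w) :
    ∃ k : ℕ, 0 < k ∧ ∀ m : Multiplicative ℤ, (m ^ k) • v ≠ w := by
  by_cases hw : ∃ d : Multiplicative ℤ, d • v = w
  · obtain ⟨d, hd⟩ := hw
    by_cases hst : ∃ l : Multiplicative ℤ, l ≠ 1 ∧ l • v = v
    · obtain ⟨l, hl, hlv⟩ := hst
      refine ⟨(Multiplicative.toAdd l).natAbs, Int.natAbs_pos.2 fun h => hl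
        (Multiplicative.toAdd.injective h), fun m hm => ?_⟩
      have hmem : l ∈ MulAction.stabilizer (Multiplicative ℤ) v := hlv
      have h2 : (m ^ (Multiplicative.toAdd l).natAbs) ∈
          MulAction.stabilizer (Multiplicative ℤ) v := by
        have h3 : m ^ (Multiplicative.toAdd l).natAbs =
            l ^ (Multiplicative.toAdd m * (Multiplicative.toAdd l).sign) := by
          apply Multiplicative.toAdd.injective
          rw [toAdd_pow, toAdd_zpow, nsmul_eq_mul, smul_eq_mul, Int.natCast_natAbs,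
            mul_assoc, Int.sign_mul_self_eq_abs, mul_comm]
        rw [h3]
        exact zpow_mem hmem _
      have h4 : (m ^ (Multiplicative.toAdd l).natAbs) • v = v := h2
      exact hvw (h4.symm.trans hm)
    · push Not at hst
      refine ⟨(Multiplicative.toAdd d).natAbs + 1, Nat.succ_pos _, fun m hm => ?_⟩
      have h1 : d⁻¹ * (m ^ ((Multiplicative.toAdd d).natAbs + 1)) = 1 := by
        by_contra hne
        apply hst _ hne
        rw [mul_smul, hm, ← hd, inv_smul_smul]
      have h2 : m ^ ((Multiplicative.toAdd d).natAbs + 1) = d := by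
        rwa [inv_mul_eq_one, eq_comm] at h1
      have h3 : (((Multiplicative.toAdd d).natAbs + 1 : ℕ) : ℤ) * Multiplicative.toAdd m =
          Multiplicative.toAdd d := by
        rw [← nsmul_eq_mul, ← toAdd_pow, h2]
      have h4 : Multiplicative.toAdd m = 0 := by
        by_contra hne
        have h5 : (Multiplicative.toAdd d).natAbs =
            ((Multiplicative.toAdd d).natAbs + 1) * (Multiplicative.toAdd m).natAbs := by
          conv_lhs => rw [← h3, Int.natAbs_mul, Int.natAbs_natCast]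
        have h6 : 0 < (Multiplicative.toAdd m).natAbs := Int.natAbs_pos.2 hne
        have h8 := Nat.le_mul_of_pos_right ((Multiplicative.toAdd d).natAbs + 1) h6
        rw [← h5] at h8
        exact absurd h8 (Nat.not_succ_le_self _)
      have h7 : m = 1 := Multiplicative.toAdd.injective h4
      rw [h7, one_pow, one_smul] at hm
      exact hvw hm
  · push Not at hw
    exact ⟨1, one_pos, fun m => hw _⟩

/-- The same for finitely many pairs. -/
theorem exists_sep_finset (F : Finset (V × V)) (hF : ∀ p ∈ F, p.1 ≠ p.2) :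
    ∃ k : ℕ, 0 < k ∧ ∀ p ∈ F, ∀ m : Multiplicative ℤ, (m ^ k) • p.1 ≠ p.2 := by
  classical
  induction F using Finset.induction_on with
  | empty => exact ⟨1, one_pos, fun p hp => by simp at hp⟩
  | insert p F hp ih =>
    obtain ⟨k, hk, h1⟩ := ih fun q hq => hF q (Finset.mem_insert_of_mem hq)
    obtain ⟨l, hl, h2⟩ := exists_sep p.1 p.2 (hF p (Finset.mem_insert_self _ _))
    refine ⟨k * l, Nat.mul_pos hk hl, fun q hq m => ?_⟩
    rcases Finset.mem_insert.1 hq with rfl | hq
    · rw [pow_mul]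
      exact h2 (m ^ k)
    · rw [mul_comm, pow_mul]
      exact h1 q hq (m ^ l)

/-- The edges in the orbits of finitely many pairs. -/
def finE (E : V → V → Prop) (F : Finset (V × V)) : V → V → Prop :=
  fun v w => E v w ∧ ∃ p ∈ F, ∃ z : Multiplicative ℤ,
    (v = z • p.1 ∧ w = z • p.2) ∨ (v = z • p.2 ∧ w = z • p.1)

theorem finE_mono {F F' : Finset (V × V)} (h : F ⊆ F') (v w : V) (hvw : finE E F v w) :
    finE E F' v w := by
  obtain ⟨h1, p, hp, z, h2⟩ := hvw
  exact ⟨h1, p, h hp, z, h2⟩

theorem finE_inv (hE : ∀ (h : Multiplicative ℤ) v w, E v w → E (h • v) (h • w))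
    (F : Finset (V × V)) : ∀ (h : Multiplicative ℤ) v w, finE E F v w →
      finE E F (h • v) (h • w) := by
  rintro h v w ⟨h1, p, hp, z, h2⟩
  refine ⟨hE h v w h1, p, hp, h * z, ?_⟩
  rcases h2 with ⟨rfl, rfl⟩ | ⟨rfl, rfl⟩
  · exact Or.inl ⟨(mul_smul _ _ _).symm, (mul_smul _ _ _).symm⟩
  · exact Or.inr ⟨(mul_smul _ _ _).symm, (mul_smul _ _ _).symm⟩

/-- Finitely many orbits of edges. -/
theorem IsFJClass.gw_finE (hP : IsFJClass P) (hA : P A)
    (hE : ∀ (h : Multiplicative ℤ) v w, E v w → E (h • v) (h • w))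
    (hsymm : ∀ v w, E v w → E w v) (hirr : ∀ v, ¬ E v v) (F : Finset (V × V)) :
    P (GW A (finE_inv hE F)) := by
  classical
  obtain ⟨k, hk, hsep⟩ := exists_sep_finset (F.filter fun p => p.1 ≠ p.2)
    (fun p hp => (Finset.mem_filter.1 hp).2)
  refine hP.semidirect_power _ k hk ?_
  -- representatives of the orbits
  let S : Finset V := (F.image Prod.fst ∪ F.image Prod.snd).biUnion fun v =>
    (Finset.range k).image fun j : ℕ => (Multiplicative.ofAdd (j : ℤ)) • v
  refine hP.gw_finite_comp hA (finE_inv hE F) (zpw k) S ?_ ?_ ?_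
  · rintro v w ⟨h1, p, hp, z, h2⟩
    refine ⟨hsymm v w h1, p, hp, z, ?_⟩
    rcases h2 with ⟨h3, h4⟩ | ⟨h3, h4⟩
    · exact Or.inr ⟨h4, h3⟩
    · exact Or.inl ⟨h4, h3⟩
  · rintro v w ⟨h1, p, hp, z, h2⟩ m hm
    have hm' : (m ^ k) • v = w := hm
    have hvw : v ≠ w := fun h => hirr v (by rw [← h] at h1; exact h1)
    have hcomm : ∀ (m : Multiplicative ℤ) (u : V), m • z • u = z • m • u := fun m u => by
      rw [smul_smul, smul_smul, mul_comm]
    have hne : p.1 ≠ p.2 := by
      intro h
      apply hvw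
      rcases h2 with ⟨h3, h4⟩ | ⟨h3, h4⟩
      · rw [h3, h4, h]
      · rw [h3, h4, h]
    have hs := hsep p (Finset.mem_filter.2 ⟨hp, hne⟩)
    rcases h2 with ⟨h3, h4⟩ | ⟨h3, h4⟩
    · rw [h3, h4, hcomm] at hm'
      exact hs m (smul_left_cancel z hm')
    · rw [h3, h4] at hm'
      have h5 : ((m⁻¹) ^ k) • z • p.1 = z • p.2 := by
        rw [← hm', smul_smul, inv_pow, inv_mul_cancel, one_smul]
      rw [hcomm] at h5
      exact hs m⁻¹ (smul_left_cancel z h5)
  · rintro v w ⟨_, p, hp, z, h2⟩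
    obtain ⟨u, hu, rfl⟩ : ∃ u ∈ F.image Prod.fst ∪ F.image Prod.snd, v = z • u := by
      rcases h2 with ⟨h2, _⟩ | ⟨h2, _⟩
      · exact ⟨p.1, Finset.mem_union_left _ (Finset.mem_image_of_mem _ hp), h2⟩
      · exact ⟨p.2, Finset.mem_union_right _ (Finset.mem_image_of_mem _ hp), h2⟩
    have hk' : (k : ℤ) ≠ 0 := by exact_mod_cast hk.ne'
    have hmod := Int.emod_nonneg (Multiplicative.toAdd z) hk'
    have hlt := Int.emod_lt_of_pos (Multiplicative.toAdd z) (by exact_mod_cast hk : (0 : ℤ) < k)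
    refine ⟨(Multiplicative.ofAdd (((Multiplicative.toAdd z % k).toNat : ℕ) : ℤ)) • u,
      Finset.mem_biUnion.2 ⟨u, hu, Finset.mem_image.2 ⟨(Multiplicative.toAdd z % k).toNat,
        Finset.mem_range.2 (by omega), rfl⟩⟩,
      Multiplicative.ofAdd (Multiplicative.toAdd z / k), ?_⟩
    rw [zpw_apply, smul_smul]
    congr 1
    apply Multiplicative.toAdd.injective
    rw [toAdd_mul, toAdd_pow, toAdd_ofAdd, toAdd_ofAdd, nsmul_eq_mul, Int.toNat_of_nonneg hmod]
    exact Int.mul_ediv_add_emod _ _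

/-- The case of the infinite cyclic group. -/
theorem IsFJClass.gw_int (hP : IsFJClass P) (hA : P A)
    (hE : ∀ (h : Multiplicative ℤ) v w, E v w → E (h • v) (h • w))
    (hsymm : ∀ v w, E v w → E w v) (hirr : ∀ v, ¬ E v v) : P (GW A hE) := by
  classical
  have hle : ∀ F : Finset (V × V), ∀ v w, finE E F v w → E v w := fun F v w h => h.1
  have hrel : ∀ w : CoprodI (fun _ : V => A), w ∈ Subgroup.normalClosure (gpRel E A) →
      ∃ F : Finset (V × V), w ∈ Subgroup.normalClosure (gpRel (finE E F) A) := by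
    intro w hw
    have hmono : ∀ {F F' : Finset (V × V)}, F ⊆ F' →
        Subgroup.normalClosure (gpRel (finE E F) A) ≤
          Subgroup.normalClosure (gpRel (finE E F') A) := by
      intro F F' h
      refine Subgroup.normalClosure_mono ?_
      rintro x ⟨v, w, hvw, hx⟩
      exact ⟨v, w, finE_mono h v w hvw, hx⟩
    refine Subgroup.closure_induction (p := fun w _ => ∃ F : Finset (V × V),
      w ∈ Subgroup.normalClosure (gpRel (finE E F) A)) ?_ ?_ ?_ ?_ hw
    · intro x hx
      obtain ⟨r, ⟨v, w, hvw, a, b, rfl⟩, hr⟩ := Group.mem_conjugatesOfSet_iff.1 hx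
      refine ⟨{(v, w)}, Subgroup.conjugatesOfSet_subset_normalClosure
        (Group.mem_conjugatesOfSet_iff.2 ⟨_, ⟨v, w, ⟨hvw, (v, w), by simp, 1, Or.inl ⟨?_, ?_⟩⟩,
          a, b, rfl⟩, hr⟩)⟩
      · rw [one_smul]
      · rw [one_smul]
    · exact ⟨∅, one_mem _⟩
    · rintro x y _ _ ⟨F, hF⟩ ⟨F', hF'⟩
      exact ⟨F ∪ F', mul_mem (hmono Finset.subset_union_left hF)
        (hmono Finset.subset_union_right hF')⟩
    · rintro x _ ⟨F, hF⟩
      exact ⟨F, inv_mem hF⟩
  refine hP.colimit (ι := Finset (V × V)) (fun F => GW A (finE_inv hE F))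
    (fun F F' h => gwMap _ _ (finE_mono h)) (fun F => gwMap _ _ (hle F)) ?_ ?_ ?_ ?_ ?_
    (fun F => hP.gw_finE hA hE hsymm hirr F)
  · intro F x
    have : gwMap (A := A) (finE_inv hE F) (finE_inv hE F) (finE_mono le_rfl) =
        MonoidHom.id _ := gw_hom_ext _ (fun h => by rw [gwMap_inr]; rfl)
          (fun v a => by rw [gwMap_vert]; rfl)
    exact DFunLike.congr_fun this x
  · intro F F' F'' h h' x
    have : (gwMap (A := A) (finE_inv hE F') (finE_inv hE F'') (finE_mono h')).comp
        (gwMap (finE_inv hE F) (finE_inv hE F') (finE_mono h)) =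
        gwMap (finE_inv hE F) (finE_inv hE F'') (finE_mono (h.trans h')) :=
      gw_hom_ext _ (fun z => by rw [MonoidHom.comp_apply, gwMap_inr, gwMap_inr, gwMap_inr])
        (fun v a => by rw [MonoidHom.comp_apply, gwMap_vert, gwMap_vert, gwMap_vert])
    exact DFunLike.congr_fun this x
  · intro F F' h x
    have : (gwMap (A := A) (finE_inv hE F') hE (hle F')).comp
        (gwMap (finE_inv hE F) (finE_inv hE F') (finE_mono h)) =
        gwMap (finE_inv hE F) hE (hle F) :=
      gw_hom_ext _ (fun z => by rw [MonoidHom.comp_apply, gwMap_inr, gwMap_inr, gwMap_inr])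
        (fun v a => by rw [MonoidHom.comp_apply, gwMap_vert, gwMap_vert, gwMap_vert])
    exact DFunLike.congr_fun this x
  · rintro ⟨y, z⟩
    obtain ⟨w, rfl⟩ := QuotientGroup.mk_surjective y
    refine ⟨∅, inl (QuotientGroup.mk w) * inr z, ?_⟩
    rw [map_mul, gwMap_inr, gwMap_inl, gpMap_mk]
    exact (SemidirectProduct.mk_eq_inl_mul_inr _ _).symm
  · rintro F ⟨y, z⟩ hx
    obtain ⟨w, rfl⟩ := QuotientGroup.mk_surjective y
    have h1 : gwMap (finE_inv hE F) hE (hle F) (inl (QuotientGroup.mk w) * inr z) = 1 := by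
      rw [← SemidirectProduct.mk_eq_inl_mul_inr]; exact hx
    rw [map_mul, gwMap_inr, gwMap_inl, gpMap_mk, ← SemidirectProduct.mk_eq_inl_mul_inr] at h1
    have h2 : (QuotientGroup.mk w : GP E A) = 1 := congrArg SemidirectProduct.left h1
    have h3 : z = 1 := congrArg SemidirectProduct.right h1
    obtain ⟨F', hF'⟩ := hrel w ((QuotientGroup.eq_one_iff w).1 h2)
    refine ⟨F ∪ F', Finset.subset_union_left, ?_⟩
    rw [SemidirectProduct.mk_eq_inl_mul_inr, map_mul, gwMap_inr, gwMap_inl, gpMap_mk, h3, map_one,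
      mul_one]
    have h4 : (QuotientGroup.mk w : GP (finE E (F ∪ F')) A) = 1 := by
      refine (QuotientGroup.eq_one_iff w).2 ?_
      refine Subgroup.normalClosure_mono ?_ hF'
      rintro x ⟨v, w, hvw, hx⟩
      exact ⟨v, w, finE_mono Finset.subset_union_right v w hvw, hx⟩
    rw [h4, map_one]

end Root

section

variable {V Q : Type} [Group Q] [MulAction Q V] {E : V → V → Prop} {A : Type} [Group A]

/-- Graph products of copies of a group in the class. -/
theorem IsFJClass.gp_mem (hP : IsFJClass P) {V : Type} {E : V → V → Prop} (hA : P A)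
    (hsymm : ∀ v w, E v w → E w v) (hirr : ∀ v, ¬ E v v) : P (GP E A) := by
  let act' : MulAction (Multiplicative ℤ) V :=
    { smul := fun _ v => v
      one_smul := fun _ => rfl
      mul_smul := fun _ _ _ => rfl }
  have hE : ∀ (h : Multiplicative ℤ) v w, E v w → E (h • v) (h • w) :=
    fun _ _ _ h => h
  exact hP.of_injective (inl : GP E A →* GW A hE) inl_injective (hP.gw_int hA hE hsymm hirr)

/-- Graph wreath products. -/
theorem IsFJClass.gw_mem (hP : IsFJClass P) (hQ : P Q) (hA : P A)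
    (hE : ∀ (h : Q) v w, E v w → E (h • v) (h • w))
    (hsymm : ∀ v w, E v w → E w v) (hirr : ∀ v, ¬ E v v) : P (GW A hE) := by
  refine hP.semidirect_int (gpAct hE) hQ (hP.gp_mem hA hsymm hirr) fun q _ => ?_
  let act' : MulAction (Multiplicative ℤ) V := MulAction.compHom V (zpowersHom Q q)
  have hE' : ∀ (h : Multiplicative ℤ) v w, E v w → E (h • v) (h • w) :=
    fun h v w hvw => hE (zpowersHom Q q h) v w hvw
  rw [← gpAct_comp act' (zpowersHom Q q) (fun _ _ => rfl) hE hE']
  exact hP.gw_int hA hE' hsymm hirr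

/-- Graph wreath products, without reference to the construction of the action. -/
theorem IsFJClass.exists_gw_mem (hP : IsFJClass P) (hQ : P Q) (hA : P A)
    (hE : ∀ (h : Q) v w, E v w → E (h • v) (h • w))
    (hsymm : ∀ v w, E v w → E w v) (hirr : ∀ v, ¬ E v v) :
    ∃ φ : Q →* MulAut (GP E A),
      (∀ (q : Q) (v : V) (a : A),
        φ q (QuotientGroup.mk (CoprodI.of (M := fun _ : V => A) (i := v) a)) =
          QuotientGroup.mk (CoprodI.of (M := fun _ : V => A) (i := q • v) a)) ∧
      P (GP E A ⋊[φ] Q) :=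
  ⟨gpAct hE, fun q v a => gpAct_vert hE q v a, hP.gw_mem hQ hA hE hsymm hirr⟩

end

end Pool.Agent.FJ
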