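import Pool.Agent.Lib.MP_98022b_gw.GP

/-!
# Graph wreath products: removing one orbit of vertices
-/

set_option autoImplicit false

namespace Pool.Agent.FJ

open Monoid SemidirectProduct

variable {P : ∀ (G : Type) [Group G], Prop}

section

variable {H V : Type} [Group H] [MulAction H V] {E : V → V → Prop} {A : Type} [Group A]

/-- Graphs without edges. -/
theorem IsFJClass.gw_free (hP : IsFJClass P) (hH : P H) (hA : P A)
    (hE : ∀ (h : H) v w, E v w → E (h • v) (h • w)) (h0 : ∀ v w, ¬ E v w) : P (GW A hE) := by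
  have e1 : ∀ (h : H) (v : V) (a : A), (inl.comp (gen (h • v)) : A →* (Twist.triv H V A).Prod) a =
      inr h * (inl.comp (gen v) : A →* (Twist.triv H V A).Prod) a * (inr h)⁻¹ :=
    fun h v a => (Twist.triv H V A).conj_gen h v a
  have e2 : ∀ (v w : V), E v w → ∀ a b : A, Commute
      ((inl.comp (gen v) : A →* (Twist.triv H V A).Prod) a)
      ((inl.comp (gen w) : A →* (Twist.triv H V A).Prod) b) := fun v w h => (h0 v w h).elim
  have e3 : ∀ (h : H) (v : V) (a : A), (inl.comp (vert E (h • v)) : A →* GW A hE)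
      ((Twist.triv H V A).κ h v a) =
      inr h * (inl.comp (vert E v) : A →* GW A hE) a * (inr h)⁻¹ :=
    fun h v a => gw_conj hE h v a
  refine hP.of_retract (B := (Twist.triv H V A).Prod)
    (gwLift hE inr (fun v => inl.comp (gen v)) e2 e1)
    ((Twist.triv H V A).lift inr (fun v => inl.comp (vert E v)) e3) ?_ (hP.free_perm hH hA)
  refine gw_hom_ext hE (fun h => ?_) (fun v a => ?_)
  · rw [MonoidHom.comp_apply, gwLift_inr, Twist.lift_inr]; rfl
  · rw [MonoidHom.comp_apply, gwLift_vert, MonoidHom.comp_apply, Twist.lift_gen]; rfl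

/-- The graph without the edges that meet the orbit of `v`. -/
def delOrb (H : Type) [Group H] [MulAction H V] (E : V → V → Prop) (v : V) : V → V → Prop :=
  fun x y => E x y ∧ x ∉ MulAction.orbit H v ∧ y ∉ MulAction.orbit H v

theorem mem_orbit_smul {v x : V} (h : H) :
    h • x ∈ MulAction.orbit H v ↔ x ∈ MulAction.orbit H v := by
  constructor
  · rintro ⟨z, hz⟩
    exact ⟨h⁻¹ * z, by
      show (h⁻¹ * z) • v = x
      rw [mul_smul, show z • v = h • x from hz, inv_smul_smul]⟩
  · rintro ⟨z, hz⟩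
    exact ⟨h * z, by
      show (h * z) • v = h • x
      rw [mul_smul, show z • v = x from hz]⟩

theorem delOrb_inv (hE : ∀ (h : H) v w, E v w → E (h • v) (h • w)) (v : V) :
    ∀ (h : H) x y, delOrb H E v x y → delOrb H E v (h • x) (h • y) := by
  rintro h x y ⟨h1, h2, h3⟩
  exact ⟨hE h x y h1, fun h' => h2 ((mem_orbit_smul h).1 h'), fun h' => h3 ((mem_orbit_smul h).1 h')⟩

/-- The induction step. -/
theorem IsFJClass.gw_orbit (hP : IsFJClass P) (hA : P A)
    (hE : ∀ (h : H) v w, E v w → E (h • v) (h • w)) (hsymm : ∀ v w, E v w → E w v) (v : V)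
    (hv : ∀ x y, E x y → x ∈ MulAction.orbit H v → y ∉ MulAction.orbit H v)
    (h1 : P (GW A (delOrb_inv hE v))) : P (GW A hE) := by
  classical
  let K := GW A (delOrb_inv hE v)
  let α' : K →* GW A hE := gwMap (delOrb_inv hE v) hE (fun x y h => h.1)
  have hα'i : ∀ z : H, α' (inr z) = inr z := fun z => gwMap_inr _ _ _ z
  have hα'v : ∀ x a, α' (inl (vert _ x a)) = inl (vert E x a) := fun x a => gwMap_vert _ _ _ x a
  let S : Subgroup K :=
    { carrier := {k | ∀ a : A, Commute (α' k) (inl (vert E v a))}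
      one_mem' := fun a => by rw [map_one]; exact Commute.one_left _
      mul_mem' := fun {x y} hx hy a => by rw [map_mul]; exact (hx a).mul_left (hy a)
      inv_mem' := fun {x} hx a => by rw [map_inv]; exact (hx a).inv_left }
  have hS : ∀ {k : K}, k ∈ S ↔ ∀ a : A, Commute (α' k) (inl (vert E v a)) := Iff.rfl
  -- the point of `K ⧸ S` of an element of the orbit
  have hz : ∀ o : V, ∃ z : H, o ∈ MulAction.orbit H v → z • v = o := by
    intro o
    by_cases ho : o ∈ MulAction.orbit H v
    · obtain ⟨z, hz⟩ := ho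
      exact ⟨z, fun _ => hz⟩
    · exact ⟨1, fun h => (ho h).elim⟩
  choose z hz using hz
  let pt : V → K ⧸ S := fun o => QuotientGroup.mk (inr (z o))
  have hstab : ∀ y : H, y • v = v → (inr y : K) ∈ S := by
    intro y hy a
    rw [hα'i]
    have h := gw_conj hE y v a
    rw [hy] at h
    exact (eq_mul_inv_iff_mul_eq.1 h).symm
  have hpt : ∀ y o, o ∈ MulAction.orbit H v → y • v = o →
      pt o = QuotientGroup.mk (inr y : K) := by
    intro y o ho hy
    refine QuotientGroup.eq.2 ?_
    have : (inr (z o) : K)⁻¹ * inr y = inr ((z o)⁻¹ * y) := by rw [map_mul, map_inv]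
    rw [this]
    refine hstab _ ?_
    rw [mul_smul, hy, inv_smul_eq_iff, hz o ho]
  have hptsmul : ∀ (y : H) (o : V), o ∈ MulAction.orbit H v →
      (inr y : K) • pt o = pt (y • o) := by
    intro y o ho
    have h2 : y • o ∈ MulAction.orbit H v := (mem_orbit_smul y).2 ho
    rw [hpt (y * z o) (y • o) h2 (by rw [mul_smul, hz o ho])]
    show QuotientGroup.mk (inr y * inr (z o) : K) = _
    rw [← map_mul]
  -- stabilizers
  have hfix : ∀ o w : V, o ∈ MulAction.orbit H v → E o w → ∀ b : A,
      (inl (vert _ w b) : K) • pt o = pt o := by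
    intro o w ho how b
    show (QuotientGroup.mk (inl (vert _ w b) * inr (z o) : K) : K ⧸ S) =
      QuotientGroup.mk (inr (z o))
    refine (QuotientGroup.eq.2 ?_).symm
    have e : (inr (z o) : K)⁻¹ * (inl (vert _ w b) * inr (z o)) =
        inl (vert (delOrb H E v) ((z o)⁻¹ • w) b) := by
      have h := gw_conj (A := A) (delOrb_inv hE v) (z o)⁻¹ w b
      rw [h, map_inv, inv_inv, mul_assoc]
    rw [e]
    intro a
    rw [hα'v]
    have h3 : E ((z o)⁻¹ • o) ((z o)⁻¹ • w) := hE _ _ _ how
    have h4 : (z o)⁻¹ • o = v := by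
      rw [inv_smul_eq_iff, hz o ho]
    rw [h4] at h3
    exact gw_comm hE (hsymm _ _ h3) b a
  let T := Twist.triv K (K ⧸ S) A
  have hcomm : ∀ (k : K) (ω : K ⧸ S) (a : A), k • ω = ω →
      Commute (inl (gen ω a) : T.Prod) (inr k) := by
    intro k ω a hk
    have h := T.conj_gen k ω a
    rw [hk] at h
    exact eq_mul_inv_iff_mul_eq.1 h
  let β : V → (A →* T.Prod) := fun x => if x ∈ MulAction.orbit H v then inl.comp (gen (pt x))
    else (inr.comp inl).comp (vert _ x)
  have hβ1 : ∀ x, x ∈ MulAction.orbit H v → ∀ a, β x a = inl (gen (pt x) a) := by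
    intro x hx a
    simp only [β, hx, if_true]
    rfl
  have hβ2 : ∀ x, x ∉ MulAction.orbit H v → ∀ a, β x a = inr (inl (vert _ x a)) := by
    intro x hx a
    simp only [β, hx, if_false]
    rfl
  let θ : GW A hE →* T.Prod := gwLift hE (inr.comp inr) β
    (by
      intro x y hxy a b
      by_cases hx : x ∈ MulAction.orbit H v
      · have hy := hv x y hxy hx
        rw [hβ1 x hx, hβ2 y hy]
        exact hcomm _ _ _ (hfix x y hx hxy b)
      · by_cases hy : y ∈ MulAction.orbit H v
        · rw [hβ2 x hx, hβ1 y hy]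
          exact (hcomm _ _ _ (hfix y x hy (hsymm _ _ hxy) a)).symm
        · rw [hβ2 x hx, hβ2 y hy]
          exact (gw_comm (delOrb_inv hE v) ⟨hxy, hx, hy⟩ a b).map (inr : K →* T.Prod))
    (by
      intro h x a
      by_cases hx : x ∈ MulAction.orbit H v
      · have hx' : h • x ∈ MulAction.orbit H v := (mem_orbit_smul h).2 hx
        rw [hβ1 x hx, hβ1 _ hx', ← hptsmul h x hx]
        exact T.conj_gen (inr h) (pt x) a
      · have hx' : h • x ∉ MulAction.orbit H v := fun h' => hx ((mem_orbit_smul h).1 h')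
        rw [hβ2 x hx, hβ2 _ hx', gw_conj (delOrb_inv hE v) h x a, map_mul, map_mul, map_inv]
        rfl)
  let β' : K ⧸ S → (A →* GW A hE) := fun ω =>
    (MulAut.conj (α' ω.out)).toMonoidHom.comp (inl.comp (vert E v))
  have hβ' : ∀ (k : K) (a : A), β' (QuotientGroup.mk k) a = α' k * inl (vert E v a) * (α' k)⁻¹ := by
    intro k a
    have h2 : (QuotientGroup.mk (QuotientGroup.mk k : K ⧸ S).out : K ⧸ S) = QuotientGroup.mk k :=
      QuotientGroup.out_eq' _
    have h3 : k⁻¹ * (QuotientGroup.mk k : K ⧸ S).out ∈ S := QuotientGroup.eq.1 h2.symm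
    have h4 := hS.1 h3 a
    set u := (QuotientGroup.mk k : K ⧸ S).out with hu
    have h5 : u = k * (k⁻¹ * u) := by rw [mul_inv_cancel_left]
    show α' u * inl (vert E v a) * (α' u)⁻¹ = _
    rw [h5, map_mul, mul_inv_rev]
    have h6 : α' (k⁻¹ * u) * inl (vert E v a) * (α' (k⁻¹ * u))⁻¹ = inl (vert E v a) := by
      rw [h4.eq, mul_inv_cancel_right]
    calc α' k * α' (k⁻¹ * u) * inl (vert E v a) * ((α' (k⁻¹ * u))⁻¹ * (α' k)⁻¹)
        = α' k * (α' (k⁻¹ * u) * inl (vert E v a) * (α' (k⁻¹ * u))⁻¹) * (α' k)⁻¹ := by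
          simp only [mul_assoc]
      _ = _ := by rw [h6]
  let θ' : T.Prod →* GW A hE := T.lift α' β' (by
    intro k ω a
    obtain ⟨u, rfl⟩ := QuotientGroup.mk_surjective ω
    show β' (QuotientGroup.mk (k * u)) a = _
    rw [hβ', hβ', map_mul, mul_inv_rev]
    simp only [mul_assoc])
  refine hP.of_retract θ θ' ?_ (hP.free_perm h1 hA)
  refine gw_hom_ext hE (fun h => ?_) (fun x a => ?_)
  · rw [MonoidHom.comp_apply, gwLift_inr, MonoidHom.comp_apply, Twist.lift_inr, hα'i]; rfl
  · rw [MonoidHom.comp_apply, gwLift_vert]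
    by_cases hx : x ∈ MulAction.orbit H v
    · rw [hβ1 x hx, Twist.lift_gen]
      show β' (QuotientGroup.mk (inr (z x))) a = _
      rw [hβ', hα'i, ← gw_conj, hz x hx]; rfl
    · rw [hβ2 x hx, Twist.lift_inr, hα'v]; rfl

/-- Graphs whose edges only meet finitely many orbits and do not join points of the same orbit. -/
theorem IsFJClass.gw_finite_orbits (hP : IsFJClass P) (hH : P H) (hA : P A) (S : Finset V) :
    ∀ (E : V → V → Prop) (hE : ∀ (h : H) v w, E v w → E (h • v) (h • w)),
      (∀ v w, E v w → E w v) → (∀ v w, E v w → w ∉ MulAction.orbit H v) →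
      (∀ v w, E v w → ∃ s ∈ S, v ∈ MulAction.orbit H s) → P (GW A hE) := by
  classical
  induction S using Finset.induction_on with
  | empty =>
    intro E hE _ _ h
    refine hP.gw_free hH hA hE fun v w hvw => ?_
    obtain ⟨s, hs, _⟩ := h v w hvw
    simp at hs
  | insert s S hs ih =>
    intro E hE hsymm hirr hfin
    refine hP.gw_orbit hA hE hsymm s ?_ ?_
    · intro x y hxy hx hy
      apply hirr x y hxy
      have e1 := MulAction.orbit_eq_iff.2 hx
      rw [e1]; exact hy
    · refine ih (delOrb H E s) (delOrb_inv hE s) ?_ ?_ ?_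
      · rintro v w ⟨h1, h2, h3⟩
        exact ⟨hsymm v w h1, h3, h2⟩
      · rintro v w ⟨h1, h2, h3⟩
        exact hirr v w h1
      · rintro v w ⟨h1, h2, h3⟩
        obtain ⟨s', hs', hv⟩ := hfin v w h1
        rcases Finset.mem_insert.1 hs' with rfl | hs'
        · exact (h2 hv).elim
        · exact ⟨s', hs', hv⟩

end

end Pool.Agent.FJ
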